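import Pool.Agent.Lib.MP_acafa7_al.F.IfaceC
import Pool.Agent.Lib.MP_acafa7_al.MS.H64.Wk

/-! KEYA: construction of the sets and of the coarse map (PaperF 7.1). -/

namespace MSG.F70

open Classical
open MSG.H64 MSG.H64.B

theorem isW_smul {V H : Type} [Group H] [MulAction H V] {G : SimpleGraph V} (hA : Aut G H)
    (h : H) {x y : V} {l : List V} (hl : IsW G x y l) :
    IsW G (h • x) (h • y) (l.map (h • ·)) :=
  isW_map (MulAction.toPerm h) (fun x y => hA h x y) hl

theorem dist_smul {V H : Type} [Group H] [MulAction H V] {G : SimpleGraph V}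
    (hG : G.Connected) (hA : Aut G H) (h : H) (x y : V) :
    G.dist (h • x) (h • y) = G.dist x y :=
  dist_aut hG (MulAction.toPerm h) (fun x y => hA h x y) x y

theorem len_cat {V : Type} {G : SimpleGraph V} {x y z : V} {l m : List V} (hl : IsW G x y l)
    (hm : IsW G y z m) : (cat l m).length + 1 = l.length + m.length := by
  obtain ⟨l0, m0, rfl, rfl, h⟩ := cat_split hl hm
  rw [h]
  simp
  omega

theorem dH_spec {V H : Type} [Group H] [MulAction H V] (G : SimpleGraph V) (x y : V) :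
    ∃ h : H, G.dist x (h • y) = dH G H x y :=
  Nat.sInf_mem (s := {n | ∃ h : H, G.dist x (h • y) = n}) ⟨_, 1, rfl⟩

theorem dH_le {V H : Type} [Group H] [MulAction H V] (G : SimpleGraph V) (x y : V) (h : H) :
    dH G H x y ≤ G.dist x (h • y) :=
  Nat.sInf_le ⟨h, rfl⟩

theorem dH_tri {V H : Type} [Group H] [MulAction H V] {G : SimpleGraph V}
    (hG : G.Connected) (hA : Aut G H) (x y y' : V) :
    dH G H x y ≤ dH G H x y' + G.dist y' y := by
  obtain ⟨h, hh⟩ := dH_spec (H := H) G x y'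
  have h1 := dH_le G x y h
  have h2 := hG.dist_triangle (u := x) (v := h • y') (w := h • y)
  rw [dist_smul hG hA] at h2
  omega

/-- representatives of the orbits -/
noncomputable def rep (H : Type) [Group H] {V : Type} [MulAction H V] (v : V) : V :=
  Quotient.out (s := MulAction.orbitRel H V) (Quotient.mk (MulAction.orbitRel H V) v)

theorem rep_spec (H : Type) [Group H] {V : Type} [MulAction H V] (v : V) :
    ∃ h : H, h • v = rep H v := by
  have h1 : Quotient.mk (MulAction.orbitRel H V) (rep H v) =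
    Quotient.mk (MulAction.orbitRel H V) v := Quotient.out_eq _
  exact Quotient.exact h1

theorem rep_eq (H : Type) [Group H] {V : Type} [MulAction H V] (v : V) (h : H) :
    rep H (h • v) = rep H v := by
  have h1 : Quotient.mk (MulAction.orbitRel H V) (h • v) =
    Quotient.mk (MulAction.orbitRel H V) v :=
    Quotient.sound (s := MulAction.orbitRel H V) ⟨h, rfl⟩
  unfold rep
  rw [h1]

theorem rep_rep (H : Type) [Group H] {V : Type} [MulAction H V] (v : V) :
    rep H (rep H v) = rep H v := by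
  obtain ⟨h, hh⟩ := rep_spec H v
  rw [← hh, rep_eq, hh]

theorem catN_walk {V : Type} {G : SimpleGraph V} {q : ℕ → V} {β : ℕ → List V} {n k : ℕ}
    (hw : ∀ i, i < n → IsW G (q i) (q (i + 1)) (β i) ∧ (β i).length ≤ k + 1) :
    ∀ m, m ≤ n → IsW G (q 0) (q m) (catN β (q 0) m) ∧ (catN β (q 0) m).length ≤ m * k + 1 := by
  intro m
  induction m with
  | zero =>
    intro _
    refine ⟨⟨List.isChain_singleton _, rfl, rfl⟩, ?_⟩
    simp [catN]
  | succ m ih =>
    intro hm
    obtain ⟨h1, h2⟩ := ih (by omega)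
    obtain ⟨h3, h4⟩ := hw m (by omega)
    refine ⟨isW_cat h1 h3, ?_⟩
    have h5 := len_cat h1 h3
    have h6 : (catN β (q 0) (m + 1)) = cat (catN β (q 0) m) (β m) := rfl
    rw [h6]
    have h7 : (m + 1) * k = m * k + k := by ring
    omega

/-- sizes: all scales are small against `k` -/
theorem rho_small {L k r₀ ρ N : ℕ} (hk : 320000000 * L + 200 + 100 * r₀ ≤ k)
    (hN : N ≤ L * k ^ 2) (h0 : r₀ ≤ ρ) (h : r₀ < ρ → (ρ - 1) ^ 3 < 40 * N) :
    100 * ρ ≤ k := by
  by_contra hc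
  rcases Nat.eq_or_lt_of_le h0 with h1 | h1
  · subst h1; omega
  · have h2 := h h1
    obtain ⟨s, hs⟩ : ∃ s, ρ = s + 1 := ⟨ρ - 1, by omega⟩
    subst hs
    simp only [Nat.add_sub_cancel] at h2
    have h3 : k ≤ 200 * s := by omega
    have h4 : k ^ 3 ≤ (200 * s) ^ 3 := Nat.pow_le_pow_left h3 3
    have h5 : k ^ 3 ≤ 8000000 * s ^ 3 := by
      calc k ^ 3 ≤ (200 * s) ^ 3 := h4
        _ = 8000000 * s ^ 3 := by ring
    have h6 : k ^ 3 < 320000000 * (L * k ^ 2) := by
      calc k ^ 3 ≤ 8000000 * s ^ 3 := h5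
        _ < 8000000 * (40 * N) := by omega
        _ = 320000000 * N := by ring
        _ ≤ 320000000 * (L * k ^ 2) := by omega
    have h7 : 320000000 * L ≤ k := by omega
    have h8 : (320000000 * L) * k ^ 2 ≤ k * k ^ 2 := Nat.mul_le_mul_right _ h7
    have h9 : k * k ^ 2 = k ^ 3 := by ring
    have h10 : 320000000 * (L * k ^ 2) = (320000000 * L) * k ^ 2 := by ring
    omega

theorem keya_st (cm2 : CMap2Statement) (key1 : Key1Statement) : KeyAStatement := by
  intro C N₀
  refine ⟨C * (N₀ + 2) ^ 2 + N₀ * (9 * C), fun r₀ hr₀ c => ?_⟩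
  refine ⟨320000000 * (C * (N₀ + 2) ^ 2 + N₀ * (9 * C)) + 200 + 100 * r₀ + 4 * c + 8, ?_⟩
  intro V G hC p _ H _ _ _ hA hp z hz k n q β i₁ i₂ hk hn hP Sm hSm
  have hG := hC.conn
  set L := C * (N₀ + 2) ^ 2 + N₀ * (9 * C) with hL
  -- the walks `α`
  have hgeo : ∀ v : V, ∃ l, IsW G v (z • v) l ∧ l.length = G.dist v (z • v) + 1 :=
    fun v => exists_geod hG _ _
  choose al hal1 hal2 using hgeo
  -- the fillings of the squares
  have hsq : ∀ i, i < n → ∃ S, Fil2 G C (cat (β i) (al (q (i + 1))))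
      (cat (al (q i)) ((β i).map (z • ·))) S := by
    intro i hi
    have hb := (hP.wk i hi).1
    exact hC.geo (q i) (z • q (i + 1)) _ _ (isW_cat hb (hal1 _))
      (isW_cat (hal1 _) (isW_smul hA z hb))
  have hsq' : ∀ i, ∃ S : Finset V, i < n → Fil2 G C (cat (β i) (al (q (i + 1))))
      (cat (al (q i)) ((β i).map (z • ·))) S := by
    intro i
    by_cases hi : i < n
    · obtain ⟨S, hS⟩ := hsq i hi
      exact ⟨S, fun _ => hS⟩
    · exact ⟨∅, fun h => absurd h hi⟩
  choose Sk hSk using hsq'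
  -- sizes
  have hal3 : ∀ i, i ≤ n → (al (q i)).length ≤ c + 1 := by
    intro i hi
    rw [hal2]
    have := hP.fix i hi z
    omega
  have hSkc : ∀ i, i < n → (Sk i).card ≤ 9 * C * k ^ 2 := by
    intro i hi
    have hb := (hP.wk i hi).1
    have hb2 := (hP.wk i hi).2
    have h1 := (hSk i hi).card
    have h2 := len_cat hb (hal1 (q (i + 1)))
    have h3 := len_cat (hal1 (q i)) (isW_smul hA z hb)
    rw [List.length_map] at h3
    have h4 := hal3 i (by omega)
    have h5 := hal3 (i + 1) (by omega)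
    have h6 : (cat (β i) (al (q (i + 1)))).length +
        (cat (al (q i)) ((β i).map (z • ·))).length ≤ 3 * k := by omega
    calc (Sk i).card ≤ C * ((cat (β i) (al (q (i + 1)))).length +
          (cat (al (q i)) ((β i).map (z • ·))).length) ^ 2 := h1
      _ ≤ C * (3 * k) ^ 2 := Nat.mul_le_mul_left _ (Nat.pow_le_pow_left h6 2)
      _ = 9 * C * k ^ 2 := by ring
  have hSmc : Sm.card ≤ C * (N₀ + 2) ^ 2 * k ^ 2 := by
    have h1 := hSm.card
    have h2 := (catN_walk hP.wk n le_rfl).2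
    have h3 : (catN β (q 0) n).length + [q 0].length ≤ (N₀ + 2) * k := by
      have h4 : n * k ≤ N₀ * k := Nat.mul_le_mul_right _ hn
      have h5 : (N₀ + 2) * k = N₀ * k + 2 * k := by ring
      simp only [List.length_singleton]
      omega
    calc Sm.card ≤ C * ((catN β (q 0) n).length + [q 0].length) ^ 2 := h1
      _ ≤ C * ((N₀ + 2) * k) ^ 2 := Nat.mul_le_mul_left _ (Nat.pow_le_pow_left h3 2)
      _ = C * (N₀ + 2) ^ 2 * k ^ 2 := by ring
  -- the union
  set U : Finset V := Sm ∪ (Finset.range n).biUnion Sk with hU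
  have hUc : U.card ≤ L * k ^ 2 := by
    have h1 : ((Finset.range n).biUnion Sk).card ≤ N₀ * (9 * C) * k ^ 2 := by
      calc ((Finset.range n).biUnion Sk).card ≤ ∑ i ∈ Finset.range n, (Sk i).card :=
            Finset.card_biUnion_le
        _ ≤ ∑ _i ∈ Finset.range n, 9 * C * k ^ 2 :=
            Finset.sum_le_sum (fun i hi => hSkc i (Finset.mem_range.1 hi))
        _ = n * (9 * C * k ^ 2) := by simp
        _ ≤ N₀ * (9 * C * k ^ 2) := Nat.mul_le_mul_right _ hn
        _ = N₀ * (9 * C) * k ^ 2 := by ring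
    calc U.card ≤ Sm.card + ((Finset.range n).biUnion Sk).card := Finset.card_union_le _ _
      _ ≤ C * (N₀ + 2) ^ 2 * k ^ 2 + N₀ * (9 * C) * k ^ 2 := Nat.add_le_add hSmc h1
      _ = L * k ^ 2 := by rw [hL]; ring
  -- closure under `H` and representatives
  set S : Finset V := (Finset.univ : Finset H).biUnion (fun h => U.image (fun v => h • v)) with hS
  have hmS : ∀ v, v ∈ S ↔ ∃ h : H, ∃ u ∈ U, h • u = v := by
    intro v
    simp [hS]
  set T : Finset V := U.image (rep H) with hT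
  have hUS : U ⊆ S := fun u hu => (hmS u).2 ⟨1, u, hu, one_smul _ _⟩
  have hSmU : Sm ⊆ S := Finset.Subset.trans Finset.subset_union_left hUS
  have hSkU : ∀ i, i < n → Sk i ⊆ S := by
    intro i hi
    refine Finset.Subset.trans ?_ hUS
    intro v hv
    exact Finset.mem_union_right _ (Finset.mem_biUnion.2 ⟨i, Finset.mem_range.2 hi, hv⟩)
  have hq0 : q 0 ∈ Sm := hSm.mem _ (by simp)
  have hSi : ∀ (h : H), ∀ x ∈ S, h • x ∈ S := by
    intro h x hx
    obtain ⟨h', u, hu, rfl⟩ := (hmS x).1 hx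
    exact (hmS _).2 ⟨h * h', u, hu, mul_smul _ _ _⟩
  have hTS : T ⊆ S := by
    intro x hx
    obtain ⟨u, hu, rfl⟩ := Finset.mem_image.1 hx
    obtain ⟨h, hh⟩ := rep_spec H u
    exact (hmS _).2 ⟨h, u, hu, hh⟩
  have hTr : ∀ y ∈ S, ∃ x ∈ T, ∃ h : H, y = h • x := by
    intro y hy
    obtain ⟨h, u, hu, rfl⟩ := (hmS y).1 hy
    obtain ⟨h', hh'⟩ := rep_spec H u
    refine ⟨rep H u, Finset.mem_image_of_mem _ hu, h * h'⁻¹, ?_⟩
    rw [← hh', mul_smul, inv_smul_smul]
  have hTu : ∀ x ∈ T, ∀ y ∈ T, ∀ h : H, y = h • x → x = y := by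
    intro x hx y hy h hxy
    obtain ⟨u, hu, rfl⟩ := Finset.mem_image.1 hx
    obtain ⟨w, hw, rfl⟩ := Finset.mem_image.1 hy
    have h1 := rep_eq H (rep H u) h
    rw [← hxy, rep_rep, rep_rep] at h1
    exact h1.symm
  have hTc : T.card ≤ L * k ^ 2 := le_trans Finset.card_image_le hUc
  obtain ⟨ρ, Y, _, _, π, cc, ct, hCM, hsur, hct, hdct, hρ, hgen⟩ :=
    cm2 V G hG H hA S T r₀ hr₀ ⟨q 0, hSmU hq0⟩ hSi hTS hTr hTu
  refine ⟨T, ρ, hTc, hρ, ?_⟩
  intro t₁ t₂ h1 h2 h3 h4
  have hsm : ∀ v, 100 * ρ (ct v) ≤ k := by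
    intro v
    obtain ⟨h5, h6⟩ := hρ (ct v) (hct v)
    refine rho_small (L := L) (r₀ := r₀) (N := (T.filter (fun y => dH G H (ct v) y ≤
      ρ (ct v) - 1)).card) (by omega) (le_trans (Finset.card_filter_le _ _) hTc) h5 h6
  obtain ⟨x, hx, y, hy, w, hw, hxy, hyw, hxw, hfix, hR⟩ :=
    key1 V G C hC p H hA hp z hz c k n q β (fun i => al (q i)) i₁ i₂ hP (by omega)
      (fun i hi => ⟨hal1 _, hal3 i hi⟩) (by simp only [hP.clo]) S Sm Sk hSmU hSkU hSm
      (fun i hi => hSk i hi) Y π cc ρ ct hCM hsur hdct hsm t₁ t₂ h1 h2 h3 h4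
  refine ⟨x, hx, ct (π x), hct _, ct (π y), hct _, ct (π w), hct _, hdct x (hSmU hx), ?_, ?_,
    hgen (π x) (fun h => (hfix h).1), hR⟩
  · have e1 := dH_tri hG hA (ct (π y)) x y
    have e2 := hdct y (hSmU hy)
    have e3 : G.dist y x = 1 := SimpleGraph.dist_eq_one_iff_adj.2 hxy.symm
    omega
  · have e1 := dH_tri hG hA (ct (π w)) x w
    have e2 := hdct w (hSmU hw)
    have e3 : G.dist w x = 1 := SimpleGraph.dist_eq_one_iff_adj.2 hxw.symm
    omega

end MSG.F70
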