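import Pool.Agent.Lib.MP_acafa7_al.F.IfaceG
import Pool.Agent.Lib.MP_acafa7_al.F.H70.KeyA

/-! COARSE: a metrically systolic complex with a geometric action satisfies the hypotheses of the
coarse part. -/

namespace MSG.F70

open Classical

theorem homA_trans {V A : Type} [AddCommGroup A] {G : SimpleGraph V} {S : Set V}
    {ω : V → V → V → A} {l l' l'' : List V} {e e' : A} (h : HomA G S ω l l' e)
    (h' : HomA G S ω l' l'' e') : HomA G S ω l l'' (e + e') := by
  induction h with
  | refl l => rw [zero_add]; exact h'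
  | step hs _ ih =>
    rw [add_assoc]
    exact HomA.step hs (ih h')

theorem homN_of_stp {V : Type} {G : SimpleGraph V} {S : Set V} {l l' : List V} {e : ℤ}
    (h : StpA G S (fun _ _ _ => (0 : ℤ)) l l' e) (he : e = 0) : HomN G S l l' := by
  subst he
  have := HomA.step h (HomA.refl l')
  rw [add_zero] at this
  exact this

theorem homN_trans {V : Type} {G : SimpleGraph V} {S : Set V} {l l' l'' : List V}
    (h : HomN G S l l') (h' : HomN G S l' l'') : HomN G S l l'' := by
  have := homA_trans h h'
  rw [add_zero] at this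
  exact this

theorem homN_of_eqv {V : Type} {G : SimpleGraph V} {l l' : List V}
    (h : Relation.EqvGen (Move G) l l') :
    HomN G Set.univ l l' ∧ HomN G Set.univ l' l := by
  induction h with
  | rel l l' h =>
    cases h with
    | back u v x y hxy =>
      exact ⟨homN_of_stp (StpA.ins u v x y hxy (Set.mem_univ _)) rfl,
        homN_of_stp (StpA.del u v x y hxy) rfl⟩
    | tri u v x y z h1 h2 h3 =>
      exact ⟨homN_of_stp (StpA.exp u v x y z h1 h2 h3 (Set.mem_univ _)) (by simp),
        homN_of_stp (StpA.con u v x y z h1 h2 h3) rfl⟩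
  | refl l => exact ⟨HomA.refl l, HomA.refl l⟩
  | symm l l' _ ih => exact ⟨ih.2, ih.1⟩
  | trans l l' l'' _ _ ih1 ih2 => exact ⟨homN_trans ih1.1 ih2.1, homN_trans ih2.2 ih1.2⟩

theorem scn_of_sc {V : Type} {G : SimpleGraph V} (h : SimplyConnected G) : ScN G :=
  fun x l hl => (homN_of_eqv (h x l hl)).1

theorem ball_finite {V : Type} {G : SimpleGraph V} (hG : G.Connected)
    (hf : ∀ x : V, {y | G.Adj x y}.Finite) (x : V) (r : ℕ) : {y | G.dist x y ≤ r}.Finite := by
  induction r with
  | zero =>
    refine (Set.finite_singleton x).subset ?_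
    intro y hy
    have h1 : G.dist x y = 0 := Nat.le_zero.1 hy
    exact ((hG.dist_eq_zero_iff).1 h1).symm
  | succ r ih =>
    have h1 : ({y | G.dist x y ≤ r} ∪ ⋃ z ∈ {y | G.dist x y ≤ r}, {y | G.Adj z y}).Finite :=
      ih.union (ih.biUnion (fun z _ => hf z))
    refine h1.subset ?_
    intro y hy
    have hy' : G.dist x y ≤ r + 1 := hy
    rcases Nat.lt_or_ge (G.dist x y) (r + 1) with h2 | h2
    · exact Or.inl (Nat.lt_succ_iff.1 h2)
    · right
      obtain ⟨p, hp⟩ := (hG y x).exists_walk_length_eq_dist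
      cases p with
      | nil =>
        have h3 : G.dist x x = 0 := by simp
        omega
      | cons h q =>
        rename_i z
        simp only [SimpleGraph.Walk.length_cons] at hp
        have h3 : G.dist z x ≤ q.length := SimpleGraph.dist_le q
        have h4 : G.dist y x = G.dist x y := SimpleGraph.dist_comm
        have h5 : G.dist z x = G.dist x z := SimpleGraph.dist_comm
        refine Set.mem_biUnion (x := z) ?_ h.symm
        show G.dist x z ≤ r
        omega

theorem coarse_st (cst : CstStatement) (minq : MinQStatement) (geop : GeoPStatement)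
    (spha : SphAStatement) : CoarseStatement := by
  intro V X Γ _ _ hMS hgeo
  obtain ⟨a₀, Λ, ha, hΛ, har⟩ := cst V X Γ hMS hgeo
  obtain ⟨C₁, hC₁⟩ := minq a₀ Λ ha
  have hQI : QI X.G C₁ := hC₁ V X hMS.metric hMS.large hΛ har
  have hsc : ScN X.G := scn_of_sc hMS.sc
  obtain ⟨C, hC⟩ := geop C₁
  refine ⟨C, hMS.conn, ?_, ?_, ?_⟩
  · intro r
    obtain ⟨s, hs⟩ := hgeo.cocompact
    have hfin := fun x => ball_finite hMS.conn hgeo.locfin x r
    refine ⟨∑ y ∈ s, {z | X.G.dist y z ≤ r}.ncard, ?_⟩
    intro x
    refine ⟨hfin x, ?_⟩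
    obtain ⟨g, y, hy, rfl⟩ := hs x
    have h1 : {z | X.G.dist (g • y) z ≤ r} = (g • ·) '' {z | X.G.dist y z ≤ r} := by
      ext z
      constructor
      · intro hz
        refine ⟨g⁻¹ • z, ?_, by simp⟩
        have h2 := dist_smul hMS.conn hgeo.adj g y (g⁻¹ • z)
        rw [smul_inv_smul] at h2
        show X.G.dist y (g⁻¹ • z) ≤ r
        rw [← h2]; exact hz
      · rintro ⟨w, hw, rfl⟩
        show X.G.dist (g • y) (g • w) ≤ r
        rw [dist_smul hMS.conn hgeo.adj g y w]; exact hw
    rw [h1, Set.ncard_image_of_injective _ (MulAction.injective g)]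
    exact Finset.single_le_sum (f := fun y => {z | X.G.dist y z ≤ r}.ncard)
      (fun _ _ => Nat.zero_le _) hy
  · exact hC V X.G hMS.conn hsc hQI
  · intro A _ hA S ω hω x e hx he
    exact spha V A X hMS.metric hMS.large hA S ω hω x e hx he

end MSG.F70
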