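import Pool.Agent.Lib.MP_acafa7_al.F.IfaceC

/-! TK: assembly of the facts on weights of homotopies for a coarse map. -/

namespace MSG.F70

open Classical

theorem tk_st (_ : HAlgStatement) (omc : OmCStatement) (tku : TkUStatement)
    (tka : TkAStatement) : TkStatement := by
  intro V G C hC B _ _ hA S Y _ _ π c hcm
  obtain ⟨h1, h2⟩ := omc V G B S Y π c hcm
  exact tka V G B hA S Y π c hcm (tku V (Ch2 Y) G S (om π c)
    (fun x e hx he => hC.sph (Ch2 Y) h2 S (om π c) h1 x e hx he))

end MSG.F70
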