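import Pool.Agent.Lib.MP_acafa7_al.F.IfaceG
import Pool.Agent.Lib.MP_acafa7_al.MS.Full1

/-! PSTEP: one move on the big face of a labelled planar map with zero shifts. -/

namespace MSG.F70

open Classical

/-- the complex with all lengths one -/
def cx1 {V : Type} (G : SimpleGraph V) : Cx V := ⟨G, fun _ _ => 1⟩

/-- lift of a walk to the second coordinate zero -/
def up {V : Type} (w : List V) : List (V × ℤ) := w.map (fun v => (v, (0 : ℤ)))

theorem up_fst {V : Type} (w : List V) : (up w).map Prod.fst = w := by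
  simp [up, List.map_map, Function.comp_def]

theorem wkA_zero {V D : Type} {a : Equiv.Perm V} (M : LMap V D a) (h : M.Zero) (l : List D) :
    M.wkA 0 l = l.map M.t := by
  induction l with
  | nil => rfl
  | cons r l ih => simp [LMap.wkA, (h r).2, ih]

theorem t_zero {V D : Type} {a : Equiv.Perm V} (M : LMap V D a) (h : M.Zero) (d : D) :
    M.t d = M.f (M.φ d) := by
  have h1 := M.tgt d
  rw [(h d).1, (h d).2] at h1
  unfold LMap.t
  rw [(h d).1]
  simpa using h1

theorem wk_face {V D : Type} {a : Equiv.Perm V} (M : LMap V D a) (h : M.Zero) (R : List D)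
    (hR : M.IsFace R) : M.wk R = R.map M.f ++ (R.map M.f).take 1 := by
  obtain ⟨h0, -, h2⟩ := hR
  cases R with
  | nil => exact absurd rfl h0
  | cons r l =>
    have h3 : (r :: l).map M.t = ((r :: l).map M.φ).map M.f := by
      rw [List.map_map]
      apply List.map_congr_left
      intro d _
      exact t_zero M h d
    have h4 : M.wk (r :: l) = M.f r :: (r :: l).map M.t := by
      rw [← wkA_zero M h]; rfl
    rw [h4, h3, h2]
    simp

theorem walk_up {V D : Type} (M : PMap V D) (R : List D) (hR : M.IsFace R) :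
    M.toL.HasWalk R (up (M.wk R)) := by
  have hz : M.toL.Zero := fun d => ⟨rfl, rfl⟩
  refine ⟨hR, 0, ?_, fun _ => rfl⟩
  rw [wk_face M.toL hz R hR]
  have h1 : R.map M.toL.f = up (R.map M.f) := by
    simp [up, PMap.toL]
  rw [h1]
  simp [up, PMap.wk, List.map_take]

theorem stp_up {V : Type} (G : SimpleGraph V) (S : Set V) (w w' : List V) (e : ZMod 2)
    (h : Stp G S (fun _ _ _ => 0) w w' e) :
    Stp (cx1 G).times.G {p | p.1 ∈ S} (fun _ _ _ => 0) (up w) (up w') e := by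
  have hadj : ∀ x y, G.Adj x y → (cx1 G).times.G.Adj (x, (0 : ℤ)) (y, (0 : ℤ)) :=
    fun x y h => ⟨h, rfl⟩
  cases h with
  | ins u v x y h1 h2 =>
    have := Stp.ins (ω := fun _ _ _ => 0) (up u) (up v) (x, (0 : ℤ)) (y, (0 : ℤ)) (hadj x y h1)
      (Y := {p : V × ℤ | p.1 ∈ S}) h2
    simpa [up] using this
  | del u v x y h1 =>
    have := Stp.del (ω := fun _ _ _ => 0) (up u) (up v) (x, (0 : ℤ)) (y, (0 : ℤ)) (hadj x y h1)
      (Y := {p : V × ℤ | p.1 ∈ S})
    simpa [up] using this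
  | exp u v x y z h1 h2 h3 h4 =>
    have := Stp.exp (ω := fun _ _ _ => 0) (up u) (up v) (x, (0 : ℤ)) (y, (0 : ℤ)) (z, (0 : ℤ))
      (hadj x y h1) (hadj y z h2) (hadj x z h3) (Y := {p : V × ℤ | p.1 ∈ S}) h4
    simpa [up] using this
  | con u v x y z h1 h2 h3 =>
    have := Stp.con (ω := fun _ _ _ => 0) (up u) (up v) (x, (0 : ℤ)) (y, (0 : ℤ)) (z, (0 : ℤ))
      (hadj x y h1) (hadj y z h2) (hadj x z h3) (Y := {p : V × ℤ | p.1 ∈ S})
    simpa [up] using this

theorem face_mem {D : Type} (M : DMap D) (R : List D) (hR : M.IsFace R) (d : D) :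
    M.φ d ∈ R ↔ d ∈ R := by
  obtain ⟨-, -, h2⟩ := hR
  constructor
  · intro h
    have h3 : M.φ d ∈ R.map M.φ := by
      rw [h2, List.mem_rotate]; exact h
    obtain ⟨x, hx, hx'⟩ := List.mem_map.1 h3
    rw [← M.φ.injective hx']; exact hx
  · intro h
    have h3 : M.φ d ∈ R.map M.φ := List.mem_map_of_mem h
    rw [h2, List.mem_rotate] at h3
    exact h3

theorem pstep_st (brg : BrgStatement) : PStepStatement := by
  intro V D _ G S M R w w' e hM hS hst hlen
  have hfree := (brg V (cx1 G)).2.2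
  have hcoc : Cocyc (cx1 G).times.G {p : V × ℤ | p.1 ∈ S} (fun _ _ _ => 0) :=
    ⟨fun _ _ _ => rfl, fun _ _ _ => rfl, by intros; simp⟩
  have hz : M.toL.Zero := fun d => ⟨rfl, rfl⟩
  have hadj : M.toL.AdjM (cx1 G).times.G := by
    intro d
    refine ⟨?_, ?_⟩
    · exact hM.adj d
    · simp [LMap.t, PMap.toL]
  have hw : M.toL.HasWalk R (up w) := by
    rw [hM.walk]; exact walk_up M R hM.face
  obtain ⟨D', hD', M', R', h1, h2, h3, h4, h5⟩ := a_step (V × ℤ) D (cx1 G).times (shft V) hfree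
    M.toL R {p : V × ℤ | p.1 ∈ S} (fun _ _ _ => 0) (up w) (up w') e hcoc hM.planar hadj hw
    (stp_up G S w w' e hst) (by simpa [up] using hlen)
  obtain ⟨hz', hY, -⟩ := h5 hz
  obtain ⟨hR', c, hc, hc0⟩ := h1
  obtain ⟨j, hj, hj1, hj2, hj3, hj4, -⟩ := h4
  refine ⟨D', hD', M'.toP hz', R', ⟨h2, ?_, hR', ⟨?_, ?_⟩, ?_⟩, ?_⟩
  · intro d
    have h6 := (h3 d).1
    have h7 : M'.t d = M'.f (M'.ι d) := by
      unfold LMap.t; rw [(hz' d).1]; simp
    rw [h7] at h6
    exact h6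
  · intro d hd
    exact (face_mem M'.toDMap R' hR' d).2 hd
  · intro d hd
    by_cases hx : ∃ x, j x = d
    · obtain ⟨x, hx⟩ := hx
      have hxR : M.Tri3 x.1 := hM.off.2 x.1 x.2
      have hx1 : M.φ x.1 ∉ R := fun h => x.2 ((face_mem M.toDMap R hM.face x.1).1 h)
      have hx2 : M.φ (M.φ x.1) ∉ R := fun h => hx1 ((face_mem M.toDMap R hM.face _).1 h)
      have e1 : M'.φ (j x) = j ⟨M.φ x.1, hx1⟩ := hj2 x ⟨M.φ x.1, hx1⟩ rfl
      have e2 : M'.φ (j ⟨M.φ x.1, hx1⟩) = j ⟨M.φ (M.φ x.1), hx2⟩ :=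
        hj2 ⟨M.φ x.1, hx1⟩ ⟨M.φ (M.φ x.1), hx2⟩ rfl
      have e3 : M'.φ (j ⟨M.φ (M.φ x.1), hx2⟩) = j x := hj2 ⟨M.φ (M.φ x.1), hx2⟩ x hxR.1
      subst hx
      refine ⟨?_, ?_⟩
      · show M'.φ (M'.φ (M'.φ (j x))) = j x
        rw [e1, e2, e3]
      · show M'.φ (j x) ≠ j x
        rw [e1]
        intro h
        exact hxR.2 (congrArg Subtype.val (hj h))
    · exact (hj4 d hd (fun x hx' => hx ⟨x, hx'⟩)).1
  · have hc1 := hc0 hz'
    subst hc1
    have h8 : M'.wk R' = up w' := by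
      rw [hc]; simp
    rw [wk_face M' hz' R' hR'] at h8
    have h9 := congrArg (List.map Prod.fst) h8
    rw [up_fst] at h9
    rw [← h9]
    simp [PMap.wk, LMap.toP, List.map_take, Function.comp_def]
  · intro d
    exact hY (fun d => hS d) d

end MSG.F70
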